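import Mathlib
import Pool.Agent.W172.WL.Stm

/-!
Project WL (helper172): joint continuity (helper701).
-/

set_option autoImplicit false
open MeasureTheory Set
open scoped ENNReal NNReal

namespace Pool.Agent.W701.WL

open Pool.Agent.W172.WL

theorem Lam_nonneg (x : ℝ) : 0 ≤ Lam x := le_max_left _ _

theorem Lam_le_one (x : ℝ) : Lam x ≤ 1 := by
  unfold Lam
  rcases le_total x 1 with h | h
  · exact max_le zero_le_one ((min_le_left _ _).trans h)
  · exact max_le zero_le_one ((min_le_right _ _).trans (by linarith))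

theorem Lam_zero_of_le {x : ℝ} (h : x ≤ 0) : Lam x = 0 := by
  unfold Lam
  exact max_eq_left ((min_le_left _ _).trans h)

theorem Lam_zero_of_ge {x : ℝ} (h : 1 ≤ x) : Lam x = 0 := by
  unfold Lam
  exact max_eq_left ((min_le_right _ _).trans (by linarith))

theorem cont_Lam : Continuous Lam := by
  unfold Lam; fun_prop

theorem cont_cell (b l i : ℕ) (hi : i < b ^ l) : Continuous (fun x : ℝ => Lam ((b : ℝ) ^ l * Int.fract x - i)) := by
  have h1 : ContinuousOn (fun y : ℝ => Lam ((b : ℝ) ^ l * y - i)) (Icc 0 1) := by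
    apply Continuous.continuousOn
    exact cont_Lam.comp (by fun_prop)
  have h2 : Lam ((b : ℝ) ^ l * 0 - i) = Lam ((b : ℝ) ^ l * 1 - i) := by
    rw [Lam_zero_of_le (by simp), Lam_zero_of_ge]
    have : (i : ℝ) + 1 ≤ (b : ℝ) ^ l := by exact_mod_cast hi
    linarith
  exact ContinuousOn.comp_fract'' h1 h2

theorem sum_Lam_le (n : ℕ) (y : ℝ) : ∑ i ∈ Finset.range n, Lam (y - i) ≤ 1 := by
  by_cases h : ∀ i ∈ Finset.range n, Lam (y - i) = 0
  · rw [Finset.sum_eq_zero h]; exact zero_le_one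
  · push_neg at h
    obtain ⟨i, hi, hne⟩ := h
    have h1 : 0 < y - i := by
      by_contra hc
      exact hne (Lam_zero_of_le (not_lt.mp hc))
    have h2 : y - i < 1 := by
      by_contra hc
      exact hne (Lam_zero_of_ge (not_lt.mp hc))
    rw [Finset.sum_eq_single i]
    · exact Lam_le_one _
    · intro j _ hj
      rcases lt_or_gt_of_ne hj with h3 | h3
      · apply Lam_zero_of_ge
        have : (j : ℝ) + 1 ≤ i := by exact_mod_cast h3
        linarith
      · apply Lam_zero_of_le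
        have : (i : ℝ) + 1 ≤ j := by exact_mod_cast h3
        linarith
    · intro h3; exact absurd hi h3

/-- a term of `Φ` -/
noncomputable def T (b : ℕ) (α : ℝ) (N l : ℕ) (q : Om × ℝ) : ℝ := wt b α l * ∑ i ∈ Finset.range (b ^ l),
    (∑ r ∈ Finset.range N, (q.1 (l, i, r) : ℝ)) * Lam ((b : ℝ) ^ l * Int.fract q.2 - i)

theorem cont_T (b : ℕ) (α : ℝ) (N l : ℕ) : Continuous (T b α N l) := by
  unfold T
  refine continuous_const.mul (continuous_finset_sum _ fun i hi => ?_)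
  refine Continuous.mul ?_ ?_
  · refine continuous_finset_sum _ fun r _ => ?_
    exact continuous_subtype_val.comp ((continuous_apply _).comp continuous_fst)
  · exact (cont_cell b l i (Finset.mem_range.mp hi)).comp continuous_snd

theorem wt_nonneg (b : ℕ) (α : ℝ) (l : ℕ) : 0 ≤ wt b α l := by
  unfold wt; positivity

theorem T_le (b : ℕ) (α : ℝ) (N l : ℕ) (q : Om × ℝ) : ‖T b α N l q‖ ≤ wt b α l * N := by
  have h0 : ∀ i, 0 ≤ ∑ r ∈ Finset.range N, (q.1 (l, i, r) : ℝ) := fun i =>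
    Finset.sum_nonneg fun r _ => (q.1 (l, i, r)).2.1
  have h1 : ∀ i, ∑ r ∈ Finset.range N, (q.1 (l, i, r) : ℝ) ≤ N := by
    intro i
    refine (Finset.sum_le_card_nsmul _ _ 1 fun r _ => (q.1 (l, i, r)).2.2).trans ?_
    simp
  have hnn : 0 ≤ T b α N l q := by
    unfold T
    exact mul_nonneg (wt_nonneg b α l) (Finset.sum_nonneg fun i _ => mul_nonneg (h0 i) (Lam_nonneg _))
  rw [Real.norm_of_nonneg hnn]
  unfold T
  refine mul_le_mul_of_nonneg_left ?_ (wt_nonneg b α l)
  calc ∑ i ∈ Finset.range (b ^ l), (∑ r ∈ Finset.range N, (q.1 (l, i, r) : ℝ)) *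
        Lam ((b : ℝ) ^ l * Int.fract q.2 - i)
      ≤ ∑ i ∈ Finset.range (b ^ l), (N : ℝ) * Lam ((b : ℝ) ^ l * Int.fract q.2 - i) :=
        Finset.sum_le_sum fun i _ => mul_le_mul_of_nonneg_right (h1 i) (Lam_nonneg _)
    _ = N * ∑ i ∈ Finset.range (b ^ l), Lam ((b : ℝ) ^ l * Int.fract q.2 - i) := by rw [Finset.mul_sum]
    _ ≤ N * 1 := mul_le_mul_of_nonneg_left (sum_Lam_le _ _) (Nat.cast_nonneg N)
    _ = N := mul_one _

theorem summ_geo {b : ℕ} (hb : 2 ≤ b) {s : ℝ} (hs : 0 < s) : Summable (fun l : ℕ => (b : ℝ) ^ (-(s * l))) := by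
  have hb0 : (0 : ℝ) < b := by
    have : (2 : ℝ) ≤ b := by exact_mod_cast hb
    linarith
  have hb1 : (1 : ℝ) < b := by
    have : (2 : ℝ) ≤ b := by exact_mod_cast hb
    linarith
  have e : (fun l : ℕ => (b : ℝ) ^ (-(s * l))) = fun l : ℕ => ((b : ℝ) ^ (-s)) ^ l := by
    funext l
    rw [← Real.rpow_natCast, ← Real.rpow_mul hb0.le]
    ring_nf
  rw [e]
  exact summable_geometric_of_lt_one (by positivity) (Real.rpow_lt_one_of_one_lt_of_neg hb1 (by linarith))

theorem summ_wt {b : ℕ} {α : ℝ} (hb : 2 ≤ b) (h1 : α < 1) (N : ℕ) :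
    Summable (fun l : ℕ => wt b α l * N) := by
  unfold wt
  refine (summ_geo hb ?_).mul_right _
  unfold et; linarith

theorem cont_Phi {b : ℕ} {α : ℝ} (hb : 2 ≤ b) (h1 : α < 1) (N : ℕ) :
    Continuous (fun q : Om × ℝ => Phi b α N q.1 q.2) :=
  continuous_tsum (cont_T b α N) (summ_wt hb h1 N) (T_le b α N)

theorem Phi_le {b : ℕ} {α : ℝ} (hb : 2 ≤ b) (h1 : α < 1) (N : ℕ) (ω : Om) (x : ℝ) :
    |Phi b α N ω x| ≤ ∑' l : ℕ, wt b α l * N :=
  tsum_of_norm_bounded (summ_wt hb h1 N).hasSum fun l => T_le b α N l (ω, x)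

theorem contf : S_CONTF := by
  intro b α N n z hb h0 h1 g hg
  unfold F W
  refine continuous_const.mul ?_
  obtain ⟨M, hM⟩ := hg.bdd
  have hs : Summable (fun k : ℕ => (b : ℝ) ^ (-(α * k)) * (M + ∑' l : ℕ, wt b α l * N)) :=
    (summ_geo hb h0).mul_right _
  refine continuous_tsum (fun k => ?_) hs (fun k q => ?_)
  · refine continuous_const.mul (Continuous.add ?_ ?_)
    · exact hg.continuous.comp (by fun_prop)
    · exact (cont_Phi hb h1 N).comp
        (f := fun q : Om × ℝ => (q.1, (b : ℝ) ^ k * ((z + q.2) / (b : ℝ) ^ n))) (by fun_prop)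
  · rw [norm_mul, Real.norm_of_nonneg (by positivity : (0 : ℝ) ≤ (b : ℝ) ^ (-(α * k)))]
    refine mul_le_mul_of_nonneg_left ?_ (by positivity)
    refine (norm_add_le _ _).trans (add_le_add (hM _) (Phi_le hb h1 N _ _))

end Pool.Agent.W701.WL
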